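import Mathlib

/-!
# MP_98e6b1_co: for every k >= 8 there is a k-critical graph with no chromatic k-scheme
-/

namespace Pool.Agent.Results.MP_98e6b1_co.AllFromEight

open SimpleGraph

/-- `G` is `k`-critical: its chromatic number is `k` and every proper subgraph has smaller
chromatic number. -/
def Critical {V : Type} (G : SimpleGraph V) (k : ℕ) : Prop :=
  G.chromaticNumber = (k : ℕ∞) ∧
    ∀ H : G.Subgraph, H ≠ ⊤ → H.coe.chromaticNumber < (k : ℕ∞)

/-- `G` has a chromatic `k`-scheme: a proper colouring `f` with colours `Fin k`, vertices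
`x i` of colour `i`, and for all `i < j` a path from `x i` to `x j` all of whose vertices have
colour `i` or `j` (as `f` is proper, the colours then alternate). -/
def HasScheme {V : Type} (G : SimpleGraph V) (k : ℕ) : Prop :=
  ∃ f : G.Coloring (Fin k), ∃ x : Fin k → V, (∀ i, f (x i) = i) ∧
    ∀ i j : Fin k, i < j → ∃ p : G.Walk (x i) (x j), p.IsPath ∧
      ∀ v ∈ p.support, f v = i ∨ f v = j

/-! ### A working form of criticality -/

/-- working form of `(m+1)`-criticality -/
structure EC {V : Type} (G : SimpleGraph V) (m : ℕ) : Prop where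
  up : G.Colorable (m + 1)
  low : ¬ G.Colorable m
  edge : ∀ x y, G.Adj x y → ∃ c : V → Fin m, ∀ u v, G.Adj u v → c u = c v →
    (u = x ∧ v = y) ∨ (u = y ∧ v = x)
  iso : ∀ v, ∃ w, G.Adj v w

theorem EC.critical {V : Type} {G : SimpleGraph V} {m : ℕ} (h : EC G m) :
    Critical G (m + 1) := by
  constructor
  · push_cast
    rw [SimpleGraph.chromaticNumber_eq_iff_colorable_not_colorable]
    exact ⟨h.up, h.low⟩
  · intro H hH
    have hex : ∃ x y, G.Adj x y ∧ ¬ H.Adj x y := by
      by_contra hcon
      push Not at hcon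
      apply hH
      ext u v
      · simp only [SimpleGraph.Subgraph.verts_top, Set.mem_univ, iff_true]
        obtain ⟨w, hw⟩ := h.iso u
        exact H.edge_vert (hcon u w hw)
      · simp only [SimpleGraph.Subgraph.top_adj]
        exact ⟨fun a => H.adj_sub a, fun a => hcon u v a⟩
    obtain ⟨x, y, hxy, hn⟩ := hex
    obtain ⟨c, hc⟩ := h.edge x y hxy
    have hcol : H.coe.Colorable m := by
      refine ⟨SimpleGraph.Coloring.mk (fun v => c v.1) ?_⟩
      intro u v huv heq
      rw [SimpleGraph.Subgraph.coe_adj] at huv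
      rcases hc u.1 v.1 (H.adj_sub huv) heq with ⟨h1, h2⟩ | ⟨h1, h2⟩
      · rw [h1, h2] at huv
        exact hn huv
      · rw [h1, h2] at huv
        exact hn huv.symm
    calc H.coe.chromaticNumber ≤ (m : ℕ∞) := hcol.chromaticNumber_le
      _ < ((m + 1 : ℕ) : ℕ∞) := by exact_mod_cast Nat.lt_succ_self m

/-! ### The cone -/

/-- join of `G` with one new vertex `none` -/
def cone {V : Type} (G : SimpleGraph V) : SimpleGraph (Option V) where
  Adj u v := match u, v with
    | some a, some b => G.Adj a b
    | some _, none => True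
    | none, some _ => True
    | none, none => False
  symm := ⟨by
    intro u v h
    cases u <;> cases v <;> simp_all
    exact h.symm⟩
  loopless := ⟨by
    intro u h
    cases u <;> simp_all⟩

theorem cone_ss {V : Type} (G : SimpleGraph V) (a b : V) :
    (cone G).Adj (some a) (some b) ↔ G.Adj a b := Iff.rfl
theorem cone_ns {V : Type} (G : SimpleGraph V) (b : V) :
    (cone G).Adj none (some b) := trivial
theorem cone_sn {V : Type} (G : SimpleGraph V) (b : V) :
    (cone G).Adj (some b) none := trivial
theorem cone_nn {V : Type} (G : SimpleGraph V) :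
    ¬ (cone G).Adj none none := fun h => h

theorem EC.cone {V : Type} {G : SimpleGraph V} {m : ℕ} (h : EC G m) :
    EC (cone G) (m + 1) := by
  have hne : Nonempty V := by
    by_contra hcon
    rw [not_nonempty_iff] at hcon
    exact h.low ⟨SimpleGraph.Coloring.mk (fun v => (hcon.false v).elim)
      (fun {v} => (hcon.false v).elim)⟩
  refine ⟨?_, ?_, ?_, ?_⟩
  · obtain ⟨c⟩ := h.up
    refine ⟨SimpleGraph.Coloring.mk (fun v => match v with
      | some a => (c a).castSucc
      | none => Fin.last _) ?_⟩
    intro u v huv heq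
    rcases u with _ | a <;> rcases v with _ | b
    · exact cone_nn G huv
    · exact (Fin.castSucc_lt_last (c b)).ne heq.symm
    · exact (Fin.castSucc_lt_last (c a)).ne heq
    · exact c.valid ((cone_ss G a b).1 huv) (Fin.castSucc_injective _ heq)
  · rintro ⟨c⟩
    apply h.low
    have hne' : ∀ v : V, c (some v) ≠ c none := fun v => c.valid (cone_sn G v)
    choose d hd using fun v : V => Fin.exists_succAbove_eq (hne' v)
    refine ⟨SimpleGraph.Coloring.mk d ?_⟩
    intro u v huv heq
    apply c.valid ((cone_ss G u v).2 huv)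
    rw [← hd u, ← hd v, heq]
  · intro x y hxy
    have key : ∀ y : V, ∃ c : Option V → Fin (m + 1), ∀ u v, (Pool.Agent.Results.MP_98e6b1_co.AllFromEight.cone G).Adj u v →
        c u = c v → (u = none ∧ v = some y) ∨ (u = some y ∧ v = none) := by
      intro y
      obtain ⟨w, hw⟩ := h.iso y
      obtain ⟨c, hc⟩ := h.edge y w hw
      classical
      refine ⟨fun v => match v with
        | some a => if a = y then Fin.last _ else (c a).castSucc
        | none => Fin.last _, ?_⟩
      intro u v huv heq
      rcases u with _ | a <;> rcases v with _ | b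
      · exact (cone_nn G huv).elim
      · left
        refine ⟨rfl, ?_⟩
        by_contra hb
        have hb' : b ≠ y := fun e => hb (by rw [e])
        simp only [hb', if_false] at heq
        exact (Fin.castSucc_lt_last (c b)).ne heq.symm
      · right
        refine ⟨?_, rfl⟩
        by_contra hb
        have hb' : a ≠ y := fun e => hb (by rw [e])
        simp only [hb', if_false] at heq
        exact (Fin.castSucc_lt_last (c a)).ne heq
      · exfalso
        have hab := (cone_ss G a b).1 huv
        by_cases ha : a = y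
        · have hb : b ≠ y := fun e => by
            rw [ha, e] at hab
            exact G.loopless.irrefl _ hab
          simp only [ha, hb, if_true, if_false] at heq
          exact (Fin.castSucc_lt_last (c b)).ne heq.symm
        · by_cases hb : b = y
          · simp only [ha, hb, if_true, if_false] at heq
            exact (Fin.castSucc_lt_last (c a)).ne heq
          · simp only [ha, hb, if_false] at heq
            rcases hc a b hab (Fin.castSucc_injective _ heq) with ⟨h1, h2⟩ | ⟨h1, h2⟩
            · exact ha h1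
            · exact hb h2
    rcases x with _ | a <;> rcases y with _ | b
    · exact (cone_nn G hxy).elim
    · obtain ⟨c, hc⟩ := key b
      exact ⟨c, hc⟩
    · obtain ⟨c, hc⟩ := key a
      refine ⟨c, fun u v huv heq => ?_⟩
      rcases hc u v huv heq with h1 | h1
      · exact Or.inr h1
      · exact Or.inl h1
    · obtain ⟨c, hc⟩ := h.edge a b ((cone_ss G a b).1 hxy)
      refine ⟨fun v => match v with
        | some a => (c a).castSucc
        | none => Fin.last _, ?_⟩
      intro u v huv heq
      rcases u with _ | a' <;> rcases v with _ | b'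
      · exact (cone_nn G huv).elim
      · exact ((Fin.castSucc_lt_last (c b')).ne heq.symm).elim
      · exact ((Fin.castSucc_lt_last (c a')).ne heq).elim
      · rcases hc a' b' ((cone_ss G a' b').1 huv) (Fin.castSucc_injective _ heq) with
          ⟨h1, h2⟩ | ⟨h1, h2⟩
        · left; rw [h1, h2]; exact ⟨rfl, rfl⟩
        · right; rw [h1, h2]; exact ⟨rfl, rfl⟩
  · intro v
    rcases v with _ | a
    · exact ⟨some hne.some, cone_ns G _⟩
    · exact ⟨none, cone_sn G a⟩

theorem walk_pull {V : Type} {G : SimpleGraph V} {a b : Option V}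
    (p : (cone G).Walk a b) : (∀ v ∈ p.support, v ≠ none) → ∀ a' b' : V, a = some a' →
    b = some b' → ∃ q : G.Walk a' b', q.support.map some = p.support := by
  induction p with
  | nil =>
    intro _ a' b' ha hb
    have : a' = b' := by
      rw [ha] at hb
      exact Option.some_injective _ hb
    subst this
    exact ⟨SimpleGraph.Walk.nil, by simp [ha]⟩
  | @cons u w z huw p ih =>
    intro hs a' b' ha hb
    have hw : w ≠ none := hs w (by
      rw [SimpleGraph.Walk.support_cons]
      exact List.mem_cons_of_mem _ p.start_mem_support)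
    obtain ⟨w', hw'⟩ := Option.ne_none_iff_exists'.1 hw
    obtain ⟨q, hq⟩ := ih (fun v hv => hs v (by
      rw [SimpleGraph.Walk.support_cons]
      exact List.mem_cons_of_mem _ hv)) w' b' hw' hb
    have hadj : G.Adj a' w' := by
      rw [ha, hw'] at huw
      exact huw
    refine ⟨SimpleGraph.Walk.cons hadj q, ?_⟩
    rw [SimpleGraph.Walk.support_cons, SimpleGraph.Walk.support_cons, List.map_cons, hq, ha]

theorem scheme_of_cone {V : Type} {G : SimpleGraph V} {m : ℕ}
    (h : HasScheme (cone G) (m + 1)) : HasScheme G m := by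
  obtain ⟨f, x, hx, hp⟩ := h
  have hne : ∀ v : V, f (some v) ≠ f none := fun v => f.valid (cone_sn G v)
  choose d hd using fun v : V => Fin.exists_succAbove_eq (hne v)
  have hsome : ∀ j : Fin m, x ((f none).succAbove j) ≠ none := by
    intro j hj
    have h1 := hx ((f none).succAbove j)
    rw [hj] at h1
    exact Fin.succAbove_ne (f none) j h1.symm
  choose y hy using fun j : Fin m => Option.ne_none_iff_exists'.1 (hsome j)
  refine ⟨SimpleGraph.Coloring.mk d ?_, y, ?_, ?_⟩
  · intro u v huv heq
    apply f.valid ((cone_ss G u v).2 huv)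
    rw [← hd u, ← hd v, heq]
  · intro i
    have h1 := hx ((f none).succAbove i)
    rw [hy i, ← hd (y i)] at h1
    exact Fin.succAbove_right_injective h1
  · intro i j hij
    obtain ⟨p, hpp, hps⟩ := hp ((f none).succAbove i) ((f none).succAbove j)
      ((Fin.strictMono_succAbove (f none)) hij)
    have hnn : ∀ v ∈ p.support, v ≠ none := by
      intro v hv hvn
      rcases hps v hv with h1 | h1
      · rw [hvn] at h1
        exact Fin.succAbove_ne (f none) i h1.symm
      · rw [hvn] at h1
        exact Fin.succAbove_ne (f none) j h1.symm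
    obtain ⟨q, hq⟩ := walk_pull p hnn (y i) (y j) (hy i) (hy j)
    refine ⟨q, ?_, ?_⟩
    · rw [SimpleGraph.Walk.isPath_def]
      apply List.Nodup.of_map some
      rw [hq]
      exact (SimpleGraph.Walk.isPath_def p).1 hpp
    · intro v hv
      have hv' : some v ∈ p.support := by
        rw [← hq]
        exact List.mem_map_of_mem hv
      rcases hps (some v) hv' with h1 | h1
      · left
        rw [← hd v] at h1
        exact Fin.succAbove_right_injective h1
      · right
        rw [← hd v] at h1
        exact Fin.succAbove_right_injective h1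

/-! ### The base graph: five triangles arranged cyclically, consecutive ones joined -/

/-- block of a vertex -/
def g (v : Fin 15) : Fin 5 := ⟨v.1 / 3, by omega⟩

/-- The base graph `C5[K3]`. -/
def base : SimpleGraph (Fin 15) where
  Adj u v := u ≠ v ∧ (g u = g v ∨ g v = g u + 1 ∨ g u = g v + 1)
  symm := ⟨by
    intro u v h
    refine ⟨h.1.symm, ?_⟩
    rcases h.2 with h1 | h1 | h1
    · exact Or.inl h1.symm
    · exact Or.inr (Or.inr h1)
    · exact Or.inr (Or.inl h1)⟩
  loopless := ⟨by
    intro u h
    exact h.1 rfl⟩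

instance : DecidableRel base.Adj := fun u v =>
  inferInstanceAs (Decidable (u ≠ v ∧ (g u = g v ∨ g v = g u + 1 ∨ g u = g v + 1)))

/-- table of 7-colourings of `base` minus an edge, in base 7 -/
def tab : List ℕ := [0, 4615724703954, 4615724703912, 4615684467366, 4615684461192, 4615684403568, 0, 0, 0, 0, 0, 0, 4562656436184, 4147417820154, 659413445502, 4615724703954, 0, 4615724703906, 4615684467360, 4615684461186, 4615684403562, 0, 0, 0, 0, 0, 0, 4562656436178, 4147417820148, 659413445496, 4615724703912, 4615724703906, 0, 4615684467276, 4615684461102, 4615684403478, 0, 0, 0, 0, 0, 0, 4562656436094, 4147417820064, 659413445412, 4615684467366, 4615684467360, 4615684467276, 0, 4615684460220, 4615684402596, 4562656435212, 4562655729318, 4562626081770, 0, 0, 0, 0, 0, 0, 4615684461192, 4615684461186, 4615684461102, 4615684460220, 0, 4615684394364, 4562656426980, 4562655721086, 4562626073538, 0, 0, 0, 0, 0, 0, 4615684403568, 4615684403562, 4615684403478, 4615684402596, 4615684394364, 0, 4562656354950, 4562655649056, 4562626001508, 0,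 0, 0, 0, 0, 0, 0, 0, 0, 4562656435212, 4562656426980, 4562656354950, 0, 4615720605846, 4615690958298, 4615681075782, 4615196832498, 4610112278016, 0, 0, 0, 0, 0, 0, 4562655729318, 4562655721086, 4562655649056, 4615720605846, 0, 4615686722934, 4615680369888, 4615196126604, 4610111572122, 0, 0, 0, 0, 0, 0, 4562626081770, 4562626073538, 4562626001508, 4615690958298, 4615686722934, 0, 4615650722340, 4615166479056, 4610081924574, 0, 0, 0, 0, 0, 0, 0, 0, 0, 4615681075782, 4615680369888, 4615650722340, 0, 4615117066476, 4610032511994, 4562576669190, 4147338053160, 659333678508, 0, 0, 0, 0, 0, 0, 4615196832498, 4615196126604, 4615166479056, 4615117066476, 0, 4609306147068, 4561850304264, 4146611688234, 658607313582, 0, 0, 0, 0, 0, 0, 4610112278016, 4610111572122, 4610081924574, 4610032511994, 4609306147068, 0, 4555070898288, 4139832282258, 651827907606, 4562656436184, 4562656436178, 4562656436094, 0, 0, 0, 0, 0, 0, 4562576669190, 4561850304264, 4555070898288, 0, 4080512479968, 592508105316, 4147417820154, 4147417820148, 4147417820064, 0,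 0, 0, 0, 0, 0, 4147338053160, 4146611688234, 4139832282258, 4080512479968, 0, 94221766080, 659413445502, 659413445496, 659413445412, 0, 0, 0, 0, 0, 0, 659333678508, 658607313582, 651827907606, 592508105316, 94221766080, 0]

/-- the coloring -/
def tcol (x y : Fin 15) (u : Fin 15) : Fin 7 :=
  ⟨(tab.getD (15 * x.1 + y.1) 0 / 7 ^ u.1) % 7, Nat.mod_lt _ (by norm_num)⟩

theorem base_edge : ∀ x y : Fin 15, base.Adj x y → ∀ u v : Fin 15, base.Adj u v →
    tcol x y u = tcol x y v → (u = x ∧ v = y) ∨ (u = y ∧ v = x) := by
  decide +kernel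

theorem base_ind : ∀ a b c : Fin 15, ¬ base.Adj a b → ¬ base.Adj b c → ¬ base.Adj a c →
    a = b ∨ b = c ∨ a = c := by
  decide +kernel

theorem base_EC : EC base 7 := by
  refine ⟨?_, ?_, ?_, ?_⟩
  · refine ⟨SimpleGraph.Coloring.mk (fun v => if v = 0 then Fin.last 7 else
      (tcol 0 1 v).castSucc) ?_⟩
    intro u v huv heq
    revert heq huv
    revert u v
    decide +kernel
  · rintro ⟨c⟩
    have hlt : Fintype.card (Fin 7) * 2 < Fintype.card (Fin 15) := by simp
    obtain ⟨y, hy⟩ := Fintype.exists_lt_card_fiber_of_mul_lt_card (f := c) hlt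
    rw [Finset.two_lt_card] at hy
    obtain ⟨a, ha, b, hb, d, hd, hab, had, hbd⟩ := hy
    simp only [Finset.mem_filter, Finset.mem_univ, true_and] at ha hb hd
    have h1 : ¬ base.Adj a b := fun h => c.valid h (ha.trans hb.symm)
    have h2 : ¬ base.Adj b d := fun h => c.valid h (hb.trans hd.symm)
    have h3 : ¬ base.Adj a d := fun h => c.valid h (ha.trans hd.symm)
    rcases base_ind a b d h1 h2 h3 with h | h | h
    · exact hab h
    · exact hbd h
    · exact had h
  · intro x y hxy
    exact ⟨tcol x y, base_edge x y hxy⟩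
  · decide +kernel

theorem grp : ∀ a b p q : Fin 15, a ≠ b → ¬ base.Adj a b → base.Adj a p → ¬ base.Adj p b →
    base.Adj p q → base.Adj q b → ¬ base.Adj q a → q ≠ a →
    (g b = g a + 2 ∧ g q = g a + 3) ∨ (g b = g a + 3 ∧ g q = g a + 2) := by
  decide +kernel

theorem walk_mate {i j : Fin 8} (f : base.Coloring (Fin 8)) {a b : Fin 15}
    (ha : f a = i) (hb : f b = j) (hij : i ≠ j) (hn : ¬ base.Adj a b)
    (p : base.Walk a b) (hp : p.IsPath) (hs : ∀ v ∈ p.support, f v = i ∨ f v = j) :
    ∃ v1 v2, base.Adj a v1 ∧ f v1 = j ∧ base.Adj v1 v2 ∧ f v2 = i ∧ base.Adj v2 b ∧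
      v2 ≠ a := by
  have hnd := (SimpleGraph.Walk.isPath_def p).1 hp
  have hcol : ∀ u v w : Fin 15, f u = f v → f v = f w → u = v ∨ v = w ∨ u = w := by
    intro u v w h1 h2
    exact base_ind u v w (fun h => f.valid h h1) (fun h => f.valid h h2)
      (fun h => f.valid h (h1.trans h2))
  cases p with
  | nil => exact absurd (ha.symm.trans hb) hij
  | @cons _ v1 _ h1 p1 =>
    have hv1 : f v1 = j := by
      rcases hs v1 (by
        rw [SimpleGraph.Walk.support_cons]
        exact List.mem_cons_of_mem _ p1.start_mem_support) with h | h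
      · exact absurd (ha.trans h.symm) (f.valid h1)
      · exact h
    cases p1 with
    | nil => exact absurd h1 hn
    | @cons _ v2 _ h2 p2 =>
      have hv2 : f v2 = i := by
        rcases hs v2 (by
          rw [SimpleGraph.Walk.support_cons, SimpleGraph.Walk.support_cons]
          exact List.mem_cons_of_mem _ (List.mem_cons_of_mem _ p2.start_mem_support)) with h | h
        · exact h
        · exact absurd (hv1.trans h.symm) (f.valid h2)
      have hv2a : v2 ≠ a := by
        intro h
        rw [SimpleGraph.Walk.support_cons, SimpleGraph.Walk.support_cons] at hnd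
        apply (List.nodup_cons.1 hnd).1
        rw [← h]
        exact List.mem_cons_of_mem _ p2.start_mem_support
      cases p2 with
      | nil => exact absurd (hv2.symm.trans hb) hij
      | @cons _ v3 _ h3 p3 =>
        have hv3 : f v3 = j := by
          rcases hs v3 (by
            rw [SimpleGraph.Walk.support_cons, SimpleGraph.Walk.support_cons,
              SimpleGraph.Walk.support_cons]
            exact List.mem_cons_of_mem _ (List.mem_cons_of_mem _
              (List.mem_cons_of_mem _ p3.start_mem_support))) with h | h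
          · exact absurd (hv2.trans h.symm) (f.valid h3)
          · exact h
        have hv31 : v1 ≠ v3 := by
          intro h
          rw [SimpleGraph.Walk.support_cons, SimpleGraph.Walk.support_cons,
            SimpleGraph.Walk.support_cons] at hnd
          apply (List.nodup_cons.1 (List.nodup_cons.1 hnd).2).1
          rw [h]
          exact List.mem_cons_of_mem _ p3.start_mem_support
        have hb1 : b ≠ v1 := by
          intro h
          rw [h] at hn
          exact hn h1
        rcases hcol b v1 v3 (hb.trans hv1.symm) (hv1.trans hv3.symm) with h | h | h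
        · exact absurd h hb1
        · exact absurd h hv31
        · rw [← h] at h3
          exact ⟨v1, v2, h1, hv1, h2, hv2, h3, hv2a⟩

theorem g23 : ∀ a b : Fin 15, (g b = g a + 2 ∨ g b = g a + 3) ↔ (a ≠ b ∧ ¬ base.Adj a b) := by
  decide +kernel

theorem keyT : ∀ T : Finset (Fin 5), (∀ a, ¬ (a ∈ T ∧ a + 2 ∈ T ∧ a + 3 ∈ T)) →
    3 ≤ T.card → ∃ a, T = {a, a + 1, a + 2} := by
  decide +kernel

theorem cardT : ∀ T : Finset (Fin 5),
    (Finset.univ.filter (fun v : Fin 15 => g v ∈ T)).card = 3 * T.card := by
  decide +kernel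

theorem fin5b : ∀ s : Fin 5, s ≠ s + 2 ∧ s ≠ s + 3 ∧ s + 2 ≠ s + 3 := by
  decide +kernel

theorem base_no : ¬ HasScheme base 8 := by
  rintro ⟨f, x, hx, hp⟩
  have hcol : ∀ u v w : Fin 15, f u = f v → f v = f w → u = v ∨ v = w ∨ u = w := by
    intro u v w h1 h2
    exact base_ind u v w (fun h => f.valid h h1) (fun h => f.valid h h2)
      (fun h => f.valid h (h1.trans h2))
  have mate : ∀ i j : Fin 8, (g (x j) = g (x i) + 2 ∨ g (x j) = g (x i) + 3) →
      ∃ q, f q = i ∧ ((g (x j) = g (x i) + 2 ∧ g q = g (x i) + 3) ∨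
        (g (x j) = g (x i) + 3 ∧ g q = g (x i) + 2)) := by
    intro i j hg
    obtain ⟨hne, hna⟩ := (g23 (x i) (x j)).1 hg
    have hij : i ≠ j := fun h => hne (by rw [h])
    have hex : ∃ p : base.Walk (x i) (x j), p.IsPath ∧ ∀ v ∈ p.support, f v = i ∨ f v = j := by
      rcases lt_or_gt_of_ne hij with h | h
      · exact hp i j h
      · obtain ⟨p, h1, h2⟩ := hp j i h
        refine ⟨p.reverse, h1.reverse, ?_⟩
        intro v hv
        rw [SimpleGraph.Walk.support_reverse, List.mem_reverse] at hv
        exact (h2 v hv).symm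
    obtain ⟨p, h1, h2⟩ := hex
    obtain ⟨v1, v2, e1, e2, e3, e4, e5, e6⟩ := walk_mate f (hx i) (hx j) hij hna p h1 h2
    refine ⟨v2, e4, ?_⟩
    exact grp (x i) (x j) v1 v2 hne hna e1 (fun h => f.valid h (e2.trans (hx j).symm)) e3 e5
      (fun h => f.valid h (e4.trans (hx i).symm)) e6
  have hM : ∀ i j : Fin 8, g (x j) = g (x i) + 2 → ∃ q, f q = i ∧ g q = g (x i) + 3 := by
    intro i j h
    obtain ⟨q, hq, h1 | h1⟩ := mate i j (Or.inl h)
    · exact ⟨q, hq, h1.2⟩
    · exact absurd (h.symm.trans h1.1) (fin5b _).2.2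
  have hM' : ∀ i j : Fin 8, g (x j) = g (x i) + 3 → ∃ q, f q = i ∧ g q = g (x i) + 2 := by
    intro i j h
    obtain ⟨q, hq, h1 | h1⟩ := mate i j (Or.inr h)
    · exact absurd (h1.1.symm.trans h) (fin5b _).2.2
    · exact ⟨q, hq, h1.2⟩
  have contra : ∀ (i : Fin 8) (u v : Fin 15), f u = i → f v = i → g u = g (x i) + 2 →
      g v = g (x i) + 3 → False := by
    intro i u v hu hv h2 h3
    obtain ⟨b1, b2, b3⟩ := fin5b (g (x i))
    rcases hcol (x i) u v ((hx i).trans hu.symm) (hu.trans hv.symm) with h | h | h
    · rw [← h] at h2; exact b1 h2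
    · rw [h] at h2; exact b3 (h2.symm.trans h3)
    · rw [← h] at h3; exact b2 h3
  have hinj : Function.Injective x := fun i j h => by rw [← hx i, ← hx j, h]
  set T : Finset (Fin 5) := Finset.univ.image (fun i => g (x i)) with hT
  have memT : ∀ a, a ∈ T ↔ ∃ i, g (x i) = a := by
    intro a
    rw [hT, Finset.mem_image]
    simp
  have claim1 : ∀ a, ¬ (a ∈ T ∧ a + 2 ∈ T ∧ a + 3 ∈ T) := by
    rintro a ⟨h1, h2, h3⟩
    obtain ⟨i, hi⟩ := (memT a).1 h1
    obtain ⟨j, hj⟩ := (memT _).1 h2
    obtain ⟨l, hl⟩ := (memT _).1 h3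
    obtain ⟨q, hq, hq'⟩ := hM i j (by rw [hj, hi])
    obtain ⟨r, hr, hr'⟩ := hM' i l (by rw [hl, hi])
    exact contra i r q hr hq hr' hq'
  have hsub : (Finset.univ.image x) ⊆ Finset.univ.filter (fun v : Fin 15 => g v ∈ T) := by
    intro v hv
    rw [Finset.mem_image] at hv
    obtain ⟨i, _, hi⟩ := hv
    rw [Finset.mem_filter]
    exact ⟨Finset.mem_univ _, (memT _).2 ⟨i, by rw [hi]⟩⟩
  have hcardR : (Finset.univ.image x).card = 8 := by
    rw [Finset.card_image_of_injective _ hinj]
    simp
  have hle := Finset.card_le_card hsub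
  rw [hcardR, cardT T] at hle
  obtain ⟨a, ha⟩ := keyT T claim1 (by omega)
  have hT3 : T.card = 3 := by
    have h5 : ∀ a : Fin 5, ({a, a + 1, a + 2} : Finset (Fin 5)).card = 3 := by
      decide +kernel
    rw [ha]
    exact h5 a
  have hlt : (Finset.univ.image x).card <
      (Finset.univ.filter (fun v : Fin 15 => g v ∈ T)).card := by
    rw [hcardR, cardT T, hT3]
    norm_num
  obtain ⟨y, hy1, hy2⟩ := Finset.exists_mem_notMem_of_card_lt_card hlt
  rw [Finset.mem_filter] at hy1
  have hyx : x (f y) ≠ y := by
    intro h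
    apply hy2
    rw [Finset.mem_image]
    exact ⟨f y, Finset.mem_univ _, h⟩
  have hna : ¬ base.Adj (x (f y)) y := fun h => f.valid h (hx (f y))
  have hxT : g (x (f y)) ∈ T := (memT _).2 ⟨_, rfl⟩
  rcases (g23 (x (f y)) y).2 ⟨hyx, hna⟩ with h | h
  · have h2 : g (x (f y)) + 2 ∈ T := by
      rw [← h]
      exact hy1.2
    obtain ⟨j, hj⟩ := (memT _).1 h2
    obtain ⟨q, hq, hq'⟩ := hM (f y) j hj
    exact contra (f y) y q rfl hq h hq'
  · have h2 : g (x (f y)) + 3 ∈ T := by
      rw [← h]
      exact hy1.2
    obtain ⟨j, hj⟩ := (memT _).1 h2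
    obtain ⟨q, hq, hq'⟩ := hM' (f y) j hj
    exact contra (f y) q y hq rfl hq' h

theorem all : ∀ m : ℕ, 7 ≤ m → ∃ (V : Type) (_ : Fintype V) (G : SimpleGraph V),
    EC G m ∧ ¬ HasScheme G (m + 1) := by
  intro m hm
  induction m, hm using Nat.le_induction with
  | base => exact ⟨Fin 15, inferInstance, base, base_EC, base_no⟩
  | succ m hm ih =>
    obtain ⟨V, hV, G, h1, h2⟩ := ih
    exact ⟨Option V, inferInstance, cone G, h1.cone, fun h => h2 (scheme_of_cone h)⟩

/-- For every `k ≥ 8` there is a finite `k`-critical graph without a chromatic `k`-scheme. -/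
theorem result : ∀ k : ℕ, 8 ≤ k → ∃ (V : Type) (_ : Fintype V) (G : SimpleGraph V),
    Critical G k ∧ ¬ HasScheme G k := by
  intro k hk
  obtain ⟨m, rfl⟩ : ∃ m, k = m + 1 := ⟨k - 1, by omega⟩
  obtain ⟨V, hV, G, h1, h2⟩ := all m (by omega)
  exact ⟨V, hV, G, h1.critical, h2⟩

end Pool.Agent.Results.MP_98e6b1_co.AllFromEight
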